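import Mathlib

set_option autoImplicit false

namespace Pool.Agent.Lib.MP_750254_mp

open scoped ComplexConjugate lp ENNReal

/-! ## Definitions: the rooted tree `𝕋(M, j)` and its label invariant operators (with `ν ≡ 1`) -/

section Defs

variable {A : Type}

/-- A vertex of the rooted tree is encoded by the path leading to it from the root: the list of
its steps, last step first.  A step `(k, i)` goes to the `i`-th forward neighbour with label `k`.
The label of a vertex is the label of the last step, and the label of the root is `j`. -/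
def label (j : A) : List (A × ℕ) → A
  | [] => j
  | p :: _ => p.1

/-- A list of steps is a vertex of `𝕋(M, j)` iff every step `(k, i)` made at a vertex with label
`l` satisfies `i < M l k`. -/
def IsVertex (M : Matrix A A ℕ) (j : A) : List (A × ℕ) → Prop
  | [] => True
  | p :: l => p.2 < M (label j l) p.1 ∧ IsVertex M j l

/-- The vertex set of the rooted tree `𝕋(M, j)`. -/
abbrev Vertex (M : Matrix A A ℕ) (j : A) : Type := {l : List (A × ℕ) // IsVertex M j l}

/-- The label of a vertex. -/
def lab {M : Matrix A A ℕ} {j : A} (x : Vertex M j) : A := label j x.1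

/-- `y` is a forward neighbour (a child) of `x`. -/
def IsChild {M : Matrix A A ℕ} {j : A} (x y : Vertex M j) : Prop := ∃ p : A × ℕ, y.1 = p :: x.1

/-- Adjacency in the tree. -/
def Adj {M : Matrix A A ℕ} {j : A} (x y : Vertex M j) : Prop := IsChild x y ∨ IsChild y x

/-- The Hilbert space `ℓ²(V)` of the tree `𝕋(M, j)` (weight `ν ≡ 1`), that is Mathlib's
`ℓ²(Vertex M j, ℂ)` with its norm and inner product. -/
def L2 (M : Matrix A A ℕ) (j : A) : Type := ℓ²(Vertex M j, ℂ)

noncomputable instance (M : Matrix A A ℕ) (j : A) : NormedAddCommGroup (L2 M j) :=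
  lp.normedAddCommGroup (E := fun _ : Vertex M j => ℂ) (p := 2)

noncomputable instance (M : Matrix A A ℕ) (j : A) : InnerProductSpace ℂ (L2 M j) :=
  lp.instInnerProductSpace (G := fun _ : Vertex M j => ℂ)

instance (M : Matrix A A ℕ) (j : A) : CompleteSpace (L2 M j) :=
  lp.completeSpace (E := fun _ : Vertex M j => ℂ) (p := 2)

/-- The value of `φ ∈ ℓ²(V)` at the vertex `x`. -/
def val {M : Matrix A A ℕ} {j : A} (φ : L2 M j) (x : Vertex M j) : ℂ :=
  (show ℓ²(Vertex M j, ℂ) from φ) x

/-- `T` is a (bounded, self-adjoint) label invariant operator on `ℓ²(V)` (weight `ν ≡ 1`) of the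
tree `𝕋(M, j)` with the numbers `m j k` and `m₀ j`. -/
def IsLabelInvariant (M : Matrix A A ℕ) (j : A) (m : A → A → ℝ) (m₀ : A → ℝ)
    (T : L2 M j →L[ℂ] L2 M j) : Prop :=
  IsSelfAdjoint T ∧ ∃ t : Vertex M j → Vertex M j → ℂ,
    (∀ x y, t x y ≠ 0 ↔ Adj x y) ∧
    (∀ x y, t x y = conj (t y x)) ∧
    (∀ x y, Adj x y → ‖t x y‖ ^ 2 * (M (lab x) (lab y) : ℝ) = m (lab x) (lab y)) ∧
    ∀ (φ : L2 M j) (x : Vertex M j),
      val (T φ) x = ∑' y, t x y * val φ y + m₀ (lab x) * val φ x

/-- The three conditions on the substitution matrix: row sums at least `2`, diagonal entries at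
least `1`, and primitivity. -/
structure IsSubstitutionMatrix [Fintype A] [DecidableEq A] (M : Matrix A A ℕ) : Prop where
  two_le_sum : ∀ j, 2 ≤ ∑ k, M j k
  one_le_diag : ∀ j, 1 ≤ M j j
  primitive : ∃ n : ℕ, ∀ j k, 0 < (M ^ n) j k

/-- The spectrum of a bounded operator on `ℓ²(V)`. -/
noncomputable def spec {M : Matrix A A ℕ} {j : A} (T : L2 M j →L[ℂ] L2 M j) : Set ℂ :=
  spectrum ℂ T

/-- The number of connected components of a subset of a topological space. -/
noncomputable def numComponents {X : Type} [TopologicalSpace X] (s : Set X) : ℕ :=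
  Nat.card (ConnectedComponents s)

/-- The set `Σ₁` of the problem. -/
def Sigma1 [Fintype A] (m : A → A → ℝ) (m₀ : A → ℝ) : Set ℝ :=
  {E | ∃ ξ : A → ℂ, (∀ j, 0 < (ξ j).im) ∧
    ∀ j, ξ j * ((E : ℂ) - m₀ j + ∑ k, (m j k : ℂ) * ξ k) + 1 = 0}

end Defs

end Pool.Agent.Lib.MP_750254_mp
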