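import Pool.Agent.Lib.MP_750254_mp.Defs

set_option autoImplicit false

namespace Pool.Agent.Lib.MP_750254_mp

open scoped ComplexConjugate lp ENNReal

/-! ## The tree: splitting off the root, and sums over vertices -/

section Tree

variable {A : Type} {M : Matrix A A ℕ} {j : A}

/-- The root. -/
def root : Vertex M j := ⟨[], trivial⟩

/-- Indices of the children of a vertex with label `k`. -/
abbrev ChildIdx (M : Matrix A A ℕ) (k : A) : Type := Σ l : A, Fin (M k l)

/-- The child of `x` with index `c`. -/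
def child (x : Vertex M j) (c : ChildIdx M (lab x)) : Vertex M j :=
  ⟨(c.1, c.2.1) :: x.1, c.2.2, x.2⟩

@[simp] lemma lab_child (x : Vertex M j) (c : ChildIdx M (lab x)) : lab (child x c) = c.1 := rfl

/-- Every vertex is the root or a child, in exactly one way. -/
def splitEquiv : Unit ⊕ (Σ x : Vertex M j, ChildIdx M (lab x)) ≃ Vertex M j where
  toFun
    | .inl _ => root
    | .inr p => child p.1 p.2
  invFun
    | ⟨[], _⟩ => .inl ()
    | ⟨p :: l, h⟩ => .inr ⟨⟨l, h.2⟩, ⟨p.1, ⟨p.2, h.1⟩⟩⟩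
  left_inv := by
    rintro (_ | ⟨x, c⟩)
    · rfl
    · rfl
  right_inv := by
    rintro ⟨_ | ⟨p, l⟩, h⟩
    · rfl
    · rfl

lemma isChild_child (x : Vertex M j) (c : ChildIdx M (lab x)) : IsChild x (child x c) :=
  ⟨_, rfl⟩

lemma isChild_iff (x y : Vertex M j) : IsChild x y ↔ ∃ c, y = child x c := by
  constructor
  · rintro ⟨p, hp⟩
    obtain ⟨l, h⟩ := y
    simp only at hp
    subst hp
    exact ⟨⟨p.1, ⟨p.2, h.1⟩⟩, rfl⟩
  · rintro ⟨c, rfl⟩
    exact isChild_child x c

lemma child_injective (x : Vertex M j) : Function.Injective (child x) := by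
  intro c d h
  have h2 := splitEquiv.injective (a₁ := .inr ⟨x, c⟩) (a₂ := .inr ⟨x, d⟩) h
  simpa using h2

/-- The number of children of label `l` of a vertex with label `k` is `M k l` (a sanity check of
the definition of the tree). -/
theorem card_children (x : Vertex M j) (l : A) :
    Nat.card {y : Vertex M j // IsChild x y ∧ lab y = l} = M (lab x) l := by
  let e : Fin (M (lab x) l) ≃ {y : Vertex M j // IsChild x y ∧ lab y = l} :=
    Equiv.ofBijective (fun i => ⟨child x ⟨l, i⟩, isChild_child x _, rfl⟩) (by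
      constructor
      · intro i i' h
        have h1 : child x ⟨l, i⟩ = child x ⟨l, i'⟩ := congrArg Subtype.val h
        have h2 := child_injective x h1
        simpa using h2
      · rintro ⟨y, hy, hl⟩
        obtain ⟨⟨k, i⟩, rfl⟩ := (isChild_iff x y).1 hy
        simp only [lab_child] at hl
        subst hl
        exact ⟨i, rfl⟩)
  rw [← Nat.card_congr e, Nat.card_eq_fintype_card, Fintype.card_fin]

variable [Fintype A]

/-- Summation over the vertices: the root plus the children of every vertex. -/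
lemma hasSum_vertex {f : Vertex M j → ℝ} (hf : ∀ x, 0 ≤ f x) {S : ℝ}
    (h : HasSum (fun x => ∑ c, f (child x c)) S) : HasSum f (f root + S) := by
  rw [← splitEquiv.hasSum_iff]
  refine HasSum.sum (f := f ∘ splitEquiv) ?_ ?_
  · exact hasSum_unique (f := fun _ : Unit => f root)
  · have hs : Summable (fun p : (Σ x : Vertex M j, ChildIdx M (lab x)) => f (child p.1 p.2)) := by
      rw [summable_sigma_of_nonneg (fun p => hf _)]
      refine ⟨fun x => (hasSum_fintype _).summable, ?_⟩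
      simpa only [tsum_fintype] using h.summable
    have h2 : HasSum (fun p : (Σ x : Vertex M j, ChildIdx M (lab x)) => f (child p.1 p.2))
        (∑' p : (Σ x : Vertex M j, ChildIdx M (lab x)), f (child p.1 p.2)) := hs.hasSum
    have h3 := h2.sigma (fun x => hasSum_fintype (fun c => f (child x c)))
    rw [h.unique h3]
    exact h2

/-- Conversely, from a summable function on the vertices. -/
lemma hasSum_children {f : Vertex M j → ℝ} (hf : Summable f) :
    HasSum (fun x => ∑ c, f (child x c)) ((∑' x, f x) - f root) := by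
  have h1 : Summable (fun p : (Σ x : Vertex M j, ChildIdx M (lab x)) => f (child p.1 p.2)) := by
    have := (splitEquiv (M := M) (j := j)).summable_iff.mpr hf
    exact this.comp_injective Sum.inr_injective
  have h2 := h1.hasSum.sigma (fun x => hasSum_fintype (fun c => f (child x c)))
  have h3 : HasSum f (f root + ∑' p : (Σ x : Vertex M j, ChildIdx M (lab x)), f (child p.1 p.2)) := by
    rw [← splitEquiv.hasSum_iff]
    exact HasSum.sum (f := f ∘ splitEquiv) (hasSum_unique (f := fun _ : Unit => f root)) h1.hasSum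
  rw [h3.tsum_eq, add_sub_cancel_left]
  exact h2

end Tree

/-! ## The operators -/

section Operators

variable {A : Type} [Fintype A] {M : Matrix A A ℕ} {j : A}

/-- The value of `φ` at the parent, and `0` at the root. -/
def atParent (φ : Vertex M j → ℂ) : Vertex M j → ℂ
  | ⟨[], _⟩ => 0
  | ⟨_ :: l, h⟩ => φ ⟨l, h.2⟩

omit [Fintype A] in
@[simp] lemma atParent_root (φ : Vertex M j → ℂ) : atParent φ root = 0 := rfl

omit [Fintype A] in
@[simp] lemma atParent_child (φ : Vertex M j → ℂ) (x : Vertex M j) (c : ChildIdx M (lab x)) :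
    atParent φ (child x c) = φ x := rfl

/-- The number of children of a vertex of label `k`. -/
def deg (M : Matrix A A ℕ) (k : A) : ℕ := ∑ l, M k l

lemma card_childIdx (k : A) : Fintype.card (ChildIdx M k) = deg M k := by
  simp [ChildIdx, deg]

/-- A bound for the numbers of children. -/
def degBound (M : Matrix A A ℕ) : ℕ := ∑ k, deg M k

lemma deg_le (k : A) : deg M k ≤ degBound M :=
  Finset.single_le_sum (f := fun k => deg M k) (fun _ _ => Nat.zero_le _) (Finset.mem_univ k)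

omit [Fintype A] in
lemma l2_summable (φ : ℓ²(Vertex M j, ℂ)) : Summable (fun x => ‖φ x‖ ^ 2) := by
  have := (lp.memℓp φ).summable (p := 2) (by norm_num)
  simpa using this

omit [Fintype A] in
lemma l2_norm_sq (φ : ℓ²(Vertex M j, ℂ)) : ‖φ‖ ^ 2 = ∑' x, ‖φ x‖ ^ 2 := by
  have := lp.norm_rpow_eq_tsum (p := 2) (by norm_num) φ
  simpa using this

omit [Fintype A] in
lemma l2_hasSum (φ : ℓ²(Vertex M j, ℂ)) : HasSum (fun x => ‖φ x‖ ^ 2) (‖φ‖ ^ 2) := by
  rw [l2_norm_sq]; exact (l2_summable φ).hasSum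

omit [Fintype A] in
lemma memlp_of_summable {f : Vertex M j → ℂ} (h : Summable fun x => ‖f x‖ ^ 2) :
    Memℓp f 2 := by
  apply memℓp_gen
  simpa using h

/-- Weighted sums of squares of the downward shift. -/
lemma hasSum_atParent (g : A → ℝ) (hg : ∀ k, 0 ≤ g k) (φ : ℓ²(Vertex M j, ℂ)) :
    HasSum (fun y => g (lab y) * ‖atParent φ y‖ ^ 2)
      (∑' x, (∑ l, (M (lab x) l : ℝ) * g l) * ‖φ x‖ ^ 2) := by
  have hsum : Summable (fun x => (∑ l, (M (lab x) l : ℝ) * g l) * ‖φ x‖ ^ 2) := by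
    let C : ℝ := ∑ k, ∑ l, (M k l : ℝ) * g l
    refine Summable.of_nonneg_of_le (fun x => ?_) (fun x => ?_) ((l2_summable φ).mul_left C)
    · have : 0 ≤ ∑ l, (M (lab x) l : ℝ) * g l :=
        Finset.sum_nonneg fun l _ => mul_nonneg (Nat.cast_nonneg _) (hg l)
      positivity
    · refine mul_le_mul_of_nonneg_right ?_ (by positivity)
      exact Finset.single_le_sum (f := fun k => ∑ l, (M k l : ℝ) * g l)
        (fun k _ => Finset.sum_nonneg fun l _ => mul_nonneg (Nat.cast_nonneg _) (hg l))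
        (Finset.mem_univ (lab x))
  have hch : ∀ x : Vertex M j, ∑ c : ChildIdx M (lab x),
      g (lab (child x c)) * ‖atParent φ (child x c)‖ ^ 2
        = (∑ l, (M (lab x) l : ℝ) * g l) * ‖φ x‖ ^ 2 := by
    intro x
    simp only [lab_child, atParent_child]
    rw [← Finset.sum_mul, Fintype.sum_sigma]
    simp
  have h1 := hasSum_vertex (M := M) (j := j)
    (f := fun y => g (lab y) * ‖atParent φ y‖ ^ 2)
    (fun y => mul_nonneg (hg _) (by positivity))
    (S := ∑' x, (∑ l, (M (lab x) l : ℝ) * g l) * ‖φ x‖ ^ 2) (by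
      simp only [hch]
      exact hsum.hasSum)
  simpa using h1

lemma atParent_bound (φ : ℓ²(Vertex M j, ℂ)) :
    Summable (fun y => ‖atParent φ y‖ ^ 2) ∧
      ∑' y, ‖atParent φ y‖ ^ 2 ≤ degBound M * ‖φ‖ ^ 2 := by
  have h := hasSum_atParent (M := M) (j := j) (fun _ => 1) (fun _ => zero_le_one) φ
  simp only [one_mul, mul_one] at h
  refine ⟨h.summable, ?_⟩
  rw [h.tsum_eq, l2_norm_sq, ← tsum_mul_left]
  have hb : ∀ x : Vertex M j, (∑ l, (M (lab x) l : ℝ)) * ‖φ x‖ ^ 2 ≤ degBound M * ‖φ x‖ ^ 2 := by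
    intro x
    refine mul_le_mul_of_nonneg_right ?_ (by positivity)
    have := deg_le (M := M) (lab x)
    calc (∑ l, (M (lab x) l : ℝ)) = ((deg M (lab x) : ℕ) : ℝ) := by simp [deg]
      _ ≤ _ := by exact_mod_cast this
  refine Summable.tsum_le_tsum hb ?_ ((l2_summable φ).mul_left _)
  refine Summable.of_nonneg_of_le (fun x => ?_) hb ((l2_summable φ).mul_left _)
  have : 0 ≤ ∑ l, (M (lab x) l : ℝ) := Finset.sum_nonneg fun l _ => Nat.cast_nonneg _
  positivity

/-- The downward shift. -/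
noncomputable def down (M : Matrix A A ℕ) (j : A) :
    ℓ²(Vertex M j, ℂ) →L[ℂ] ℓ²(Vertex M j, ℂ) :=
  LinearMap.mkContinuous
    { toFun := fun φ => ⟨atParent φ, memlp_of_summable (atParent_bound φ).1⟩
      map_add' := by
        intro φ ψ
        ext y
        rcases y with ⟨_ | ⟨p, l⟩, h⟩
        · change (0 : ℂ) = 0 + 0; simp
        · rfl
      map_smul' := by
        intro c φ
        ext y
        rcases y with ⟨_ | ⟨p, l⟩, h⟩
        · change (0 : ℂ) = c * 0; simp
        · rfl }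
    (Real.sqrt (degBound M)) (by
      intro φ
      refine abs_le_of_sq_le_sq' ?_ (by positivity) |>.2
      rw [mul_pow, Real.sq_sqrt (Nat.cast_nonneg _), l2_norm_sq]
      exact (atParent_bound φ).2)

@[simp] lemma down_apply (φ : ℓ²(Vertex M j, ℂ)) (y : Vertex M j) :
    down M j φ y = atParent φ y := rfl

/-- Multiplication by a function of the label. -/
noncomputable def mulLab (M : Matrix A A ℕ) (j : A) (g : A → ℂ) :
    ℓ²(Vertex M j, ℂ) →L[ℂ] ℓ²(Vertex M j, ℂ) :=
  have hb : ∀ (φ : ℓ²(Vertex M j, ℂ)) (x : Vertex M j),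
      ‖g (lab x) * φ x‖ ^ 2 ≤ (∑ k, ‖g k‖ ^ 2) * ‖φ x‖ ^ 2 := by
    intro φ x
    rw [norm_mul, mul_pow]
    refine mul_le_mul_of_nonneg_right ?_ (by positivity)
    exact Finset.single_le_sum (f := fun k => ‖g k‖ ^ 2) (fun k _ => by positivity)
      (Finset.mem_univ (lab x))
  have hs : ∀ (φ : ℓ²(Vertex M j, ℂ)), Summable fun x => ‖g (lab x) * φ x‖ ^ 2 := fun φ =>
    Summable.of_nonneg_of_le (fun x => by positivity) (hb φ) ((l2_summable φ).mul_left _)
  LinearMap.mkContinuous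
    { toFun := fun φ => ⟨fun x => g (lab x) * φ x, memlp_of_summable (hs φ)⟩
      map_add' := by
        intro φ ψ
        ext x
        change g (lab x) * (φ x + ψ x) = g (lab x) * φ x + g (lab x) * ψ x
        ring
      map_smul' := by
        intro c φ
        ext x
        change g (lab x) * (c * φ x) = c * (g (lab x) * φ x)
        ring }
    (Real.sqrt (∑ k, ‖g k‖ ^ 2)) (by
      intro φ
      refine abs_le_of_sq_le_sq' ?_ (by positivity) |>.2
      rw [mul_pow, Real.sq_sqrt (Finset.sum_nonneg fun k _ => by positivity), l2_norm_sq,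
        l2_norm_sq, ← tsum_mul_left]
      exact Summable.tsum_le_tsum (hb φ) (hs φ) ((l2_summable φ).mul_left _))

@[simp] lemma mulLab_apply (g : A → ℂ) (φ : ℓ²(Vertex M j, ℂ)) (x : Vertex M j) :
    mulLab M j g φ x = g (lab x) * φ x := rfl

open scoped Classical in
/-- The adjoint of the downward shift sums over the children. -/
lemma adjoint_down_apply (φ : ℓ²(Vertex M j, ℂ)) (x : Vertex M j) :
    ContinuousLinearMap.adjoint (down M j) φ x = ∑ c, φ (child x c) := by
  have h1 : (inner ℂ (lp.single 2 x (1 : ℂ) : ℓ²(Vertex M j, ℂ))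
      (ContinuousLinearMap.adjoint (down M j) φ) : ℂ)
        = ContinuousLinearMap.adjoint (down M j) φ x := by
    rw [lp.inner_single_left]; simp
  have h2 : down M j (lp.single 2 x (1 : ℂ)) = ∑ c, lp.single 2 (child x c) (1 : ℂ) := by
    ext y
    rw [lp.coeFn_sum, Finset.sum_apply, down_apply]
    obtain ⟨z, rfl⟩ := splitEquiv.surjective y
    rcases z with u | ⟨x', c'⟩
    · change (0 : ℂ) = _
      symm
      apply Finset.sum_eq_zero
      intro c _
      rw [lp.single_apply, Pi.single_apply, if_neg]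
      intro h
      have := splitEquiv.injective (a₁ := .inl u) (a₂ := .inr ⟨x, c⟩) h
      cases this
    · change (lp.single 2 x (1 : ℂ) : ℓ²(Vertex M j, ℂ)) x' = _
      by_cases hx : x' = x
      · subst hx
        rw [lp.single_apply, Pi.single_eq_same]
        symm
        rw [Finset.sum_eq_single c']
        · rw [lp.single_apply]
          exact Pi.single_eq_same _ _
        · intro c _ hc
          rw [lp.single_apply, Pi.single_apply, if_neg]
          intro h
          exact hc (child_injective _ h).symm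
        · intro h; exact absurd (Finset.mem_univ _) h
      · rw [lp.single_apply, Pi.single_eq_of_ne hx]
        symm
        apply Finset.sum_eq_zero
        intro c _
        rw [lp.single_apply, Pi.single_apply, if_neg]
        intro h
        have := splitEquiv.injective (a₁ := .inr ⟨x', c'⟩) (a₂ := .inr ⟨x, c⟩) h
        simp only [Sum.inr.injEq, Sigma.mk.injEq] at this
        exact hx this.1
  rw [← h1, ContinuousLinearMap.adjoint_inner_right, h2, sum_inner]
  apply Finset.sum_congr rfl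
  intro c _
  rw [lp.inner_single_left]; simp

/-- The adjacency operator plus the potential `w` (a function of the label). -/
noncomputable def treeOp (M : Matrix A A ℕ) (j : A) (w : A → ℝ) :
    ℓ²(Vertex M j, ℂ) →L[ℂ] ℓ²(Vertex M j, ℂ) :=
  down M j + ContinuousLinearMap.adjoint (down M j) + mulLab M j (fun k => (w k : ℂ))

lemma treeOp_apply (w : A → ℝ) (φ : ℓ²(Vertex M j, ℂ)) (x : Vertex M j) :
    treeOp M j w φ x = atParent φ x + ∑ c, φ (child x c) + w (lab x) * φ x := by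
  simp only [treeOp, _root_.add_apply, lp.coeFn_add, Pi.add_apply, down_apply,
    adjoint_down_apply, mulLab_apply]

lemma mulLab_isSelfAdjoint (w : A → ℝ) :
    IsSelfAdjoint (mulLab M j (fun k => (w k : ℂ))) := by
  rw [ContinuousLinearMap.isSelfAdjoint_iff']
  symm
  rw [ContinuousLinearMap.eq_adjoint_iff]
  intro φ ψ
  rw [lp.inner_eq_tsum, lp.inner_eq_tsum]
  congr 1
  funext x
  simp only [mulLab_apply, RCLike.inner_apply, map_mul, Complex.conj_ofReal]
  ring

lemma treeOp_isSelfAdjoint (w : A → ℝ) : IsSelfAdjoint (treeOp M j w) := by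
  have h1 : IsSelfAdjoint (down M j + ContinuousLinearMap.adjoint (down M j)) := by
    rw [← ContinuousLinearMap.star_eq_adjoint]
    exact IsSelfAdjoint.add_star_self _
  exact h1.add (mulLab_isSelfAdjoint w)

omit [Fintype A] in
lemma hasSum_isChild_right [Fintype A] (φ : Vertex M j → ℂ) (x : Vertex M j) :
    HasSum (fun y => open scoped Classical in if IsChild x y then φ y else 0)
      (∑ c, φ (child x c)) := by
  classical
  rw [← (child_injective x).hasSum_iff]
  · have : (fun y => if IsChild x y then φ y else 0) ∘ child x = fun c => φ (child x c) := by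
      funext c
      simp [isChild_child]
    rw [this]
    exact hasSum_fintype _
  · intro y hy
    rw [if_neg]
    intro h
    obtain ⟨c, rfl⟩ := (isChild_iff x y).1 h
    exact hy ⟨c, rfl⟩

omit [Fintype A] in
lemma hasSum_isChild_left (φ : Vertex M j → ℂ) (x : Vertex M j) :
    HasSum (fun y => open scoped Classical in if IsChild y x then φ y else 0)
      (atParent φ x) := by
  classical
  rcases x with ⟨_ | ⟨p, l⟩, h⟩
  · have : (fun y : Vertex M j => if IsChild y ⟨[], h⟩ then φ y else 0) = fun _ => 0 := by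
      funext y
      rw [if_neg]
      rintro ⟨p, hp⟩
      simp at hp
    rw [this]
    exact hasSum_zero
  · have : (fun y : Vertex M j => if IsChild y ⟨p :: l, h⟩ then φ y else 0)
        = fun y => if y = ⟨l, h.2⟩ then φ y else 0 := by
      funext y
      congr 1
      apply propext
      constructor
      · rintro ⟨q, hq⟩
        simp only [List.cons.injEq] at hq
        exact Subtype.ext hq.2.symm
      · rintro rfl
        exact ⟨p, rfl⟩
    rw [this]
    change HasSum _ (φ ⟨l, h.2⟩)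
    convert! hasSum_ite_eq (⟨l, h.2⟩ : Vertex M j) (φ ⟨l, h.2⟩) using 2 with y
    split_ifs with hy
    · rw [hy]
    · rfl

omit [Fintype A] in
lemma not_isChild_both (x y : Vertex M j) : ¬ (IsChild x y ∧ IsChild y x) := by
  rintro ⟨⟨p, hp⟩, ⟨q, hq⟩⟩
  have h1 := congrArg List.length hp
  have h2 := congrArg List.length hq
  simp at h1 h2
  omega

/-- `treeOp M j w` is a label invariant operator with `t = 1` on the edges. -/
lemma treeOp_isLabelInvariant (w : A → ℝ) :
    IsLabelInvariant M j (fun k l => (M k l : ℝ)) w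
      (show L2 M j →L[ℂ] L2 M j from treeOp M j w) := by
  classical
  refine ⟨treeOp_isSelfAdjoint w, fun x y => if Adj x y then 1 else 0, ?_, ?_, ?_, ?_⟩
  · intro x y
    by_cases h : Adj x y <;> simp [h]
  · intro x y
    have : Adj x y ↔ Adj y x := or_comm
    by_cases h : Adj x y
    · simp [h, this.1 h]
    · simp [h, mt this.2 h]
  · intro x y h
    simp [h]
  · intro φ x
    change treeOp M j w φ x = ∑' y, (if Adj x y then 1 else 0) * (show ℓ²(Vertex M j, ℂ) from φ) y
      + w (lab x) * (show ℓ²(Vertex M j, ℂ) from φ) x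
    revert φ
    change ∀ φ : ℓ²(Vertex M j, ℂ), treeOp M j w φ x = ∑' y, (if Adj x y then 1 else 0) * φ y
      + w (lab x) * φ x
    intro φ
    rw [treeOp_apply]
    congr 1
    symm
    have h := (hasSum_isChild_left (fun y => φ y) x).add (hasSum_isChild_right (fun y => φ y) x)
    rw [← h.tsum_eq]
    congr 1
    funext y
    by_cases h1 : IsChild x y
    · have h2 : ¬ IsChild y x := fun h2 => not_isChild_both x y ⟨h1, h2⟩
      simp [Adj, h1, h2]
    · by_cases h2 : IsChild y x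
      · simp [Adj, h1, h2]
      · simp [Adj, h1, h2]

/-- The quadratic form of the hopping part is controlled by a positive weight `κ`. -/
lemma hopping_bound (κ : A → ℝ) (hκ : ∀ k, 0 < κ k) (φ : ℓ²(Vertex M j, ℂ)) :
    2 * |RCLike.re (inner ℂ (down M j φ) φ)| ≤
      ∑' x, ((∑ l, (M (lab x) l : ℝ) * κ l) + (κ (lab x))⁻¹) * ‖φ x‖ ^ 2 := by
  have h1 := hasSum_atParent κ (fun k => (hκ k).le) φ
  have h2 : Summable (fun x : Vertex M j => (κ (lab x))⁻¹ * ‖φ x‖ ^ 2) := by
    refine Summable.of_nonneg_of_le (fun x => ?_) (fun x => ?_)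
      ((l2_summable φ).mul_left (∑ k, (κ k)⁻¹))
    · have := inv_pos.2 (hκ (lab x)); positivity
    · refine mul_le_mul_of_nonneg_right ?_ (by positivity)
      exact Finset.single_le_sum (f := fun k => (κ k)⁻¹) (fun k _ => (inv_pos.2 (hκ k)).le)
        (Finset.mem_univ (lab x))
  have h3 : Summable (fun x : Vertex M j => (∑ l, (M (lab x) l : ℝ) * κ l) * ‖φ x‖ ^ 2) := by
    let C : ℝ := ∑ k, ∑ l, (M k l : ℝ) * κ l
    refine Summable.of_nonneg_of_le (fun x => ?_) (fun x => ?_) ((l2_summable φ).mul_left C)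
    · have : 0 ≤ ∑ l, (M (lab x) l : ℝ) * κ l :=
        Finset.sum_nonneg fun l _ => mul_nonneg (Nat.cast_nonneg _) (hκ l).le
      positivity
    · refine mul_le_mul_of_nonneg_right ?_ (by positivity)
      exact Finset.single_le_sum (f := fun k => ∑ l, (M k l : ℝ) * κ l)
        (fun k _ => Finset.sum_nonneg fun l _ => mul_nonneg (Nat.cast_nonneg _) (hκ l).le)
        (Finset.mem_univ (lab x))
  have hR : ∑' x, ((∑ l, (M (lab x) l : ℝ) * κ l) + (κ (lab x))⁻¹) * ‖φ x‖ ^ 2
      = (∑' y : Vertex M j, κ (lab y) * ‖atParent φ y‖ ^ 2)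
        + ∑' y : Vertex M j, (κ (lab y))⁻¹ * ‖φ y‖ ^ 2 := by
    rw [h1.tsum_eq, ← h3.tsum_add h2]
    congr 1
    funext x
    ring
  rw [hR, ← (h1.summable).tsum_add h2]
  -- pointwise AM-GM
  have hpt : ∀ y : Vertex M j, 2 * ‖(inner ℂ (down M j φ y) (φ y) : ℂ)‖ ≤
      κ (lab y) * ‖atParent φ y‖ ^ 2 + (κ (lab y))⁻¹ * ‖φ y‖ ^ 2 := by
    intro y
    have h4 : ‖(inner ℂ (down M j φ y) (φ y) : ℂ)‖ ≤ ‖atParent φ y‖ * ‖φ y‖ :=
      norm_inner_le_norm _ _
    have hk := hκ (lab y)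
    have h5 : 0 ≤ (κ (lab y))⁻¹ * (κ (lab y) * ‖atParent φ y‖ - ‖φ y‖) ^ 2 := by positivity
    have h6 : (κ (lab y))⁻¹ * (κ (lab y) * ‖atParent φ y‖ - ‖φ y‖) ^ 2
        = κ (lab y) * ‖atParent φ y‖ ^ 2 + (κ (lab y))⁻¹ * ‖φ y‖ ^ 2
          - 2 * (‖atParent φ y‖ * ‖φ y‖) := by
      field_simp
      ring
    linarith
  have hsn : Summable (fun y : Vertex M j => ‖(inner ℂ (down M j φ y) (φ y) : ℂ)‖) := by
    refine Summable.of_nonneg_of_le (fun y => norm_nonneg _) (fun y => ?_)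
      ((h1.summable.add h2))
    have := hpt y
    have h0 := norm_nonneg (inner ℂ (down M j φ y) (φ y) : ℂ)
    linarith
  have h7 : |RCLike.re (inner ℂ (down M j φ) φ)| ≤
      ∑' y : Vertex M j, ‖(inner ℂ (down M j φ y) (φ y) : ℂ)‖ := by
    calc |RCLike.re (inner ℂ (down M j φ) φ)| ≤ ‖inner ℂ (down M j φ) φ‖ :=
          RCLike.abs_re_le_norm _
      _ ≤ _ := by
          rw [lp.inner_eq_tsum]
          exact norm_tsum_le_tsum_norm hsn
  calc 2 * |RCLike.re (inner ℂ (down M j φ) φ)|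
      ≤ 2 * ∑' y : Vertex M j, ‖(inner ℂ (down M j φ y) (φ y) : ℂ)‖ := by linarith
    _ = ∑' y : Vertex M j, 2 * ‖(inner ℂ (down M j φ y) (φ y) : ℂ)‖ := by rw [tsum_mul_left]
    _ ≤ _ := Summable.tsum_le_tsum hpt (hsn.mul_left 2) (h1.summable.add h2)

/-- The quadratic form of the tree operator. -/
lemma re_inner_treeOp (w : A → ℝ) (φ : ℓ²(Vertex M j, ℂ)) :
    RCLike.re (inner ℂ (treeOp M j w φ) φ) =
      2 * RCLike.re (inner ℂ (down M j φ) φ) + ∑' x : Vertex M j, w (lab x) * ‖φ x‖ ^ 2 := by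
  have h1 : (inner ℂ (ContinuousLinearMap.adjoint (down M j) φ) φ : ℂ)
      = inner ℂ φ (down M j φ) := by
    rw [ContinuousLinearMap.adjoint_inner_left]
  have h2 : RCLike.re (inner ℂ φ (down M j φ) : ℂ) = RCLike.re (inner ℂ (down M j φ) φ : ℂ) :=
    inner_re_symm _ _
  have h3 : RCLike.re (inner ℂ (mulLab M j (fun k => (w k : ℂ)) φ) φ)
      = ∑' x : Vertex M j, w (lab x) * ‖φ x‖ ^ 2 := by
    rw [lp.inner_eq_tsum]
    have hs := lp.summable_inner (𝕜 := ℂ) (mulLab M j (fun k => (w k : ℂ)) φ) φ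
    have := RCLike.reCLM.map_tsum hs
    simp only [RCLike.reCLM_apply] at this
    rw [this]
    congr 1
    funext x
    rw [mulLab_apply, RCLike.inner_apply, map_mul (starRingEnd ℂ), Complex.conj_ofReal]
    have h4 : φ x * ((w (lab x) : ℂ) * (starRingEnd ℂ) (φ x))
        = ((w (lab x) * ‖φ x‖ ^ 2 : ℝ) : ℂ) := by
      have := Complex.mul_conj' (φ x)
      push_cast
      rw [← this]
      ring
    rw [h4]
    exact Complex.ofReal_re _
  have h5 : treeOp M j w φ = down M j φ + ContinuousLinearMap.adjoint (down M j) φ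
      + mulLab M j (fun k => (w k : ℂ)) φ := rfl
  rw [h5, inner_add_left, inner_add_left, map_add, map_add, h3, h1, h2]
  ring

lemma summable_lab (g : A → ℝ) (φ : ℓ²(Vertex M j, ℂ)) :
    Summable (fun x : Vertex M j => g (lab x) * ‖φ x‖ ^ 2) := by
  refine Summable.of_norm_bounded ((l2_summable φ).mul_left (∑ k, |g k|)) (fun x => ?_)
  rw [norm_mul, Real.norm_eq_abs, Real.norm_of_nonneg (by positivity : (0:ℝ) ≤ ‖φ x‖ ^ 2)]
  refine mul_le_mul_of_nonneg_right ?_ (by positivity)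
  exact Finset.single_le_sum (f := fun k => |g k|) (fun k _ => abs_nonneg _)
    (Finset.mem_univ (lab x))

/-- Upper bound for the quadratic form from a positive supersolution. -/
lemma form_upper (w κ : A → ℝ) (r : ℝ) (hκ : ∀ k, 0 < κ k)
    (h : ∀ k, (∑ l, (M k l : ℝ) * κ l) + (κ k)⁻¹ + w k ≤ r) (φ : ℓ²(Vertex M j, ℂ)) :
    RCLike.re (inner ℂ (treeOp M j w φ) φ) ≤ r * ‖φ‖ ^ 2 := by
  rw [re_inner_treeOp, l2_norm_sq, ← tsum_mul_left]
  have h1 := hopping_bound κ hκ φ
  have h2 := le_abs_self (RCLike.re (inner ℂ (down M j φ) φ))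
  have h3 := summable_lab (fun k => (∑ l, (M k l : ℝ) * κ l) + (κ k)⁻¹) φ
  have h4 := summable_lab w φ
  have h5 : (∑' x : Vertex M j, ((∑ l, (M (lab x) l : ℝ) * κ l) + (κ (lab x))⁻¹) * ‖φ x‖ ^ 2)
      + ∑' x : Vertex M j, w (lab x) * ‖φ x‖ ^ 2 ≤ ∑' x : Vertex M j, r * ‖φ x‖ ^ 2 := by
    rw [← h3.tsum_add h4]
    refine Summable.tsum_le_tsum (fun x => ?_) (h3.add h4) ((l2_summable φ).mul_left r)
    rw [← add_mul]
    exact mul_le_mul_of_nonneg_right (h (lab x)) (by positivity)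
  linarith

/-- Lower bound for the quadratic form from a positive supersolution of the operator with the
opposite potential. -/
lemma form_lower (w κ : A → ℝ) (r : ℝ) (hκ : ∀ k, 0 < κ k)
    (h : ∀ k, (∑ l, (M k l : ℝ) * κ l) + (κ k)⁻¹ - w k ≤ r) (φ : ℓ²(Vertex M j, ℂ)) :
    -(r * ‖φ‖ ^ 2) ≤ RCLike.re (inner ℂ (treeOp M j w φ) φ) := by
  rw [re_inner_treeOp, l2_norm_sq, ← tsum_mul_left]
  have h1 := hopping_bound κ hκ φ
  have h2 := neg_abs_le (RCLike.re (inner ℂ (down M j φ) φ))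
  have h3 := summable_lab (fun k => (∑ l, (M k l : ℝ) * κ l) + (κ k)⁻¹) φ
  have h4 := summable_lab w φ
  have h5 : (∑' x : Vertex M j, ((∑ l, (M (lab x) l : ℝ) * κ l) + (κ (lab x))⁻¹) * ‖φ x‖ ^ 2)
      - ∑' x : Vertex M j, w (lab x) * ‖φ x‖ ^ 2 ≤ ∑' x : Vertex M j, r * ‖φ x‖ ^ 2 := by
    rw [← h3.tsum_sub h4]
    refine Summable.tsum_le_tsum (fun x => ?_) (h3.sub h4) ((l2_summable φ).mul_left r)
    rw [← sub_mul]
    exact mul_le_mul_of_nonneg_right (h (lab x)) (by positivity)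
  linarith

/-- The spectrum is contained in `[-r, r]`. -/
lemma spectrum_subset (w κ κ' : A → ℝ) (r : ℝ) (hκ : ∀ k, 0 < κ k)
    (h : ∀ k, (∑ l, (M k l : ℝ) * κ l) + (κ k)⁻¹ + w k ≤ r) (hκ' : ∀ k, 0 < κ' k)
    (h' : ∀ k, (∑ l, (M k l : ℝ) * κ' l) + (κ' k)⁻¹ - w k ≤ r) :
    spectrum ℂ (treeOp M j w) ⊆ (fun E : ℝ => (E : ℂ)) '' Set.Icc (-r) r := by
  intro z hz
  have hre := (treeOp_isSelfAdjoint (M := M) (j := j) w).mem_spectrum_eq_re hz
  refine ⟨z.re, ?_, hre.symm⟩
  by_contra hnot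
  rw [Set.mem_Icc, not_and_or, not_le, not_le] at hnot
  rw [spectrum.mem_iff] at hz
  apply hz
  rw [hre]
  rcases hnot with hlt | hlt
  · -- below `-r`
    have hc : 0 < -r - z.re := by linarith
    refine ContinuousLinearMap.isUnit_of_forall_le_norm_inner_map _
      (c := ⟨-r - z.re, hc.le⟩) hc (fun φ => ?_)
    have h1 := form_lower w κ' r hκ' h' φ
    have h2 : RCLike.re (inner ℂ ((algebraMap ℂ (ℓ²(Vertex M j, ℂ) →L[ℂ] ℓ²(Vertex M j, ℂ))
        ((z.re : ℝ) : ℂ) - treeOp M j w) φ) φ)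
        = z.re * ‖φ‖ ^ 2 - RCLike.re (inner ℂ (treeOp M j w φ) φ) := by
      rw [_root_.sub_apply, inner_sub_left, map_sub, Algebra.algebraMap_eq_smul_one,
        _root_.smul_apply, one_apply_eq_self, inner_smul_left,
        Complex.conj_ofReal, inner_self_eq_norm_sq_to_K]
      simp
      norm_cast
      exact Or.inl rfl
    have h3 := RCLike.abs_re_le_norm (inner ℂ ((algebraMap ℂ (ℓ²(Vertex M j, ℂ) →L[ℂ]
      ℓ²(Vertex M j, ℂ)) ((z.re : ℝ) : ℂ) - treeOp M j w) φ) φ)
    rw [h2] at h3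
    have h4 := neg_abs_le (z.re * ‖φ‖ ^ 2 - RCLike.re (inner ℂ (treeOp M j w φ) φ))
    change ‖φ‖ ^ 2 * (-r - z.re) ≤ _
    linarith
  · -- above `r`
    have hc : 0 < z.re - r := by linarith
    refine ContinuousLinearMap.isUnit_of_forall_le_norm_inner_map _
      (c := ⟨z.re - r, hc.le⟩) hc (fun φ => ?_)
    have h1 := form_upper w κ r hκ h φ
    have h2 : RCLike.re (inner ℂ ((algebraMap ℂ (ℓ²(Vertex M j, ℂ) →L[ℂ] ℓ²(Vertex M j, ℂ))
        ((z.re : ℝ) : ℂ) - treeOp M j w) φ) φ)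
        = z.re * ‖φ‖ ^ 2 - RCLike.re (inner ℂ (treeOp M j w φ) φ) := by
      rw [_root_.sub_apply, inner_sub_left, map_sub, Algebra.algebraMap_eq_smul_one,
        _root_.smul_apply, one_apply_eq_self, inner_smul_left,
        Complex.conj_ofReal, inner_self_eq_norm_sq_to_K]
      simp
      norm_cast
      exact Or.inl rfl
    have h3 := RCLike.abs_re_le_norm (inner ℂ ((algebraMap ℂ (ℓ²(Vertex M j, ℂ) →L[ℂ]
      ℓ²(Vertex M j, ℂ)) ((z.re : ℝ) : ℂ) - treeOp M j w) φ) φ)
    rw [h2] at h3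
    have h4 := le_abs_self (z.re * ‖φ‖ ^ 2 - RCLike.re (inner ℂ (treeOp M j w φ) φ))
    change ‖φ‖ ^ 2 * (z.re - r) ≤ _
    linarith

/-! ### Weyl vectors -/

/-- The outgoing wave, damped by `θ`. -/
noncomputable def wave (θ : ℝ) (ξ : A → ℂ) : List (A × ℕ) → ℂ
  | [] => 1
  | p :: l => -(θ * ξ p.1) * wave θ ξ l

/-- The vertices of depth `< n`. -/
noncomputable def ball (M : Matrix A A ℕ) (j : A) : ℕ → Finset (Vertex M j)
  | 0 => ∅
  | n + 1 => ((Finset.univ : Finset Unit).disjSum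
      ((ball M j n).sigma (fun x => (Finset.univ : Finset (ChildIdx M (lab x)))))).map
        splitEquiv.toEmbedding

lemma sum_ball_succ (f : Vertex M j → ℝ) (n : ℕ) :
    ∑ x ∈ ball M j (n + 1), f x = f root + ∑ x ∈ ball M j n, ∑ c, f (child x c) := by
  simp only [ball, Finset.sum_map, Finset.sum_disjSum, Finset.sum_sigma, Finset.univ_unique,
    Finset.sum_singleton]
  rfl

lemma mem_ball (x : Vertex M j) (n : ℕ) : x ∈ ball M j n ↔ x.1.length < n := by
  induction n generalizing x with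
  | zero => simp [ball]
  | succ n ih =>
    obtain ⟨z, rfl⟩ := splitEquiv.surjective x
    simp only [ball, Finset.mem_map_equiv, Equiv.symm_apply_apply]
    rcases z with u | ⟨y, c⟩
    · simp [splitEquiv, root]
    · simp only [Finset.inr_mem_disjSum, Finset.mem_sigma, Finset.mem_univ, and_true, ih]
      simp [splitEquiv, child]

lemma exists_subset_ball (s : Finset (Vertex M j)) : ∃ n, s ⊆ ball M j n := by
  refine ⟨(s.sup fun x => x.1.length) + 1, fun x hx => ?_⟩
  rw [mem_ball, Nat.lt_succ_iff]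
  exact Finset.le_sup (f := fun x : Vertex M j => x.1.length) hx

section Wave

variable {E : ℝ} {w : A → ℝ} {ξ : A → ℂ}

/-- The flux weights. -/
noncomputable def flux (M : Matrix A A ℕ) (ξ : A → ℂ) (k : A) : ℝ := ∑ l, (M k l : ℝ) * (ξ l).im

omit [Fintype A] in
lemma xi_ne_zero (hξ : ∀ k, 0 < (ξ k).im) (k : A) : ξ k ≠ 0 := by
  intro h
  have := hξ k
  rw [h] at this
  simp at this

lemma norm_sq_mul_flux (hξ : ∀ k, 0 < (ξ k).im)
    (heq : ∀ k, ξ k * ((E : ℂ) - w k + ∑ l, (M k l : ℂ) * ξ l) + 1 = 0) (k : A) :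
    ‖ξ k‖ ^ 2 * flux M ξ k = (ξ k).im := by
  have h0 := xi_ne_zero hξ k
  have h1 : (E : ℂ) - w k + ∑ l, (M k l : ℂ) * ξ l = -(ξ k)⁻¹ := by
    have := heq k
    field_simp
    linear_combination this
  have h2 : (∑ l, (M k l : ℂ) * ξ l).im = flux M ξ k := by
    rw [Complex.im_sum, flux]
    apply Finset.sum_congr rfl
    intro l _
    have : ((M k l : ℂ)) = ((M k l : ℝ) : ℂ) := by push_cast; rfl
    rw [this, Complex.im_ofReal_mul]
  have h3 := congrArg Complex.im h1
  simp only [Complex.add_im, Complex.sub_im, Complex.ofReal_im, sub_self, zero_add, h2,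
    Complex.neg_im, Complex.inv_im, Complex.normSq_eq_norm_sq] at h3
  rw [h3]
  have : ‖ξ k‖ ≠ 0 := norm_ne_zero_iff.mpr h0
  field_simp

lemma flux_pos (hξ : ∀ k, 0 < (ξ k).im)
    (heq : ∀ k, ξ k * ((E : ℂ) - w k + ∑ l, (M k l : ℂ) * ξ l) + 1 = 0) (k : A) :
    0 < flux M ξ k := by
  have h1 := norm_sq_mul_flux hξ heq k
  have h2 : 0 < ‖ξ k‖ ^ 2 := by
    have := norm_pos_iff.mpr (xi_ne_zero hξ k)
    positivity
  have h3 : 0 < ‖ξ k‖ ^ 2 * flux M ξ k := by rw [h1]; exact hξ k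
  exact (mul_pos_iff_of_pos_left h2).mp h3

/-- Flux through the children of a vertex. -/
lemma flux_children (hξ : ∀ k, 0 < (ξ k).im)
    (heq : ∀ k, ξ k * ((E : ℂ) - w k + ∑ l, (M k l : ℂ) * ξ l) + 1 = 0) (θ : ℝ)
    (x : Vertex M j) :
    ∑ c, flux M ξ (lab (child x c)) * ‖wave θ ξ (child x c).1‖ ^ 2
      = θ ^ 2 * (flux M ξ (lab x) * ‖wave θ ξ x.1‖ ^ 2) := by
  have h1 : ∀ c : ChildIdx M (lab x), flux M ξ (lab (child x c)) * ‖wave θ ξ (child x c).1‖ ^ 2
      = (θ ^ 2 * ‖wave θ ξ x.1‖ ^ 2) * (ξ c.1).im := by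
    intro c
    have h2 : wave θ ξ (child x c).1 = -(θ * ξ c.1) * wave θ ξ x.1 := rfl
    rw [h2, lab_child, ← norm_sq_mul_flux hξ heq c.1, norm_mul, norm_neg, norm_mul,
      Complex.norm_real, Real.norm_eq_abs, mul_pow, mul_pow, sq_abs]
    ring
  simp only [h1]
  rw [← Finset.mul_sum, Fintype.sum_sigma, flux]
  simp only [Finset.sum_const, Finset.card_univ, Fintype.card_fin, nsmul_eq_mul]
  ring

lemma sum_ball_le (hξ : ∀ k, 0 < (ξ k).im)
    (heq : ∀ k, ξ k * ((E : ℂ) - w k + ∑ l, (M k l : ℂ) * ξ l) + 1 = 0) {θ : ℝ}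
    (hθ0 : 0 < θ) (hθ1 : θ < 1) (n : ℕ) :
    ∑ x ∈ ball M j n, flux M ξ (lab x) * ‖wave θ ξ x.1‖ ^ 2 ≤ flux M ξ j / (1 - θ ^ 2) := by
  have hθ2 : 0 < 1 - θ ^ 2 := by nlinarith
  have hj := flux_pos (M := M) hξ heq j
  induction n with
  | zero => simp only [ball, Finset.sum_empty]; positivity
  | succ n ih =>
    rw [sum_ball_succ]
    simp only [flux_children hξ heq]
    rw [← Finset.mul_sum]
    have h1 : flux M ξ (lab (root : Vertex M j)) * ‖wave θ ξ (root : Vertex M j).1‖ ^ 2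
        = flux M ξ j := by
      change flux M ξ j * ‖(1 : ℂ)‖ ^ 2 = _
      simp
    rw [h1]
    have h2 := mul_le_mul_of_nonneg_left ih (sq_nonneg θ)
    have h3 : flux M ξ j + θ ^ 2 * (flux M ξ j / (1 - θ ^ 2)) = flux M ξ j / (1 - θ ^ 2) := by
      field_simp
      ring
    linarith

lemma summable_flux (hξ : ∀ k, 0 < (ξ k).im)
    (heq : ∀ k, ξ k * ((E : ℂ) - w k + ∑ l, (M k l : ℂ) * ξ l) + 1 = 0) {θ : ℝ}
    (hθ0 : 0 < θ) (hθ1 : θ < 1) :
    Summable (fun x : Vertex M j => flux M ξ (lab x) * ‖wave θ ξ x.1‖ ^ 2) := by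
  refine summable_of_sum_le (c := flux M ξ j / (1 - θ ^ 2)) (fun x => ?_) (fun s => ?_)
  · have := flux_pos (M := M) hξ heq (lab x)
    positivity
  · obtain ⟨n, hn⟩ := exists_subset_ball s
    refine le_trans (Finset.sum_le_sum_of_subset_of_nonneg hn (fun x _ _ => ?_))
      (sum_ball_le hξ heq hθ0 hθ1 n)
    have := flux_pos (M := M) hξ heq (lab x)
    positivity

lemma tsum_flux (hξ : ∀ k, 0 < (ξ k).im)
    (heq : ∀ k, ξ k * ((E : ℂ) - w k + ∑ l, (M k l : ℂ) * ξ l) + 1 = 0) {θ : ℝ}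
    (hθ0 : 0 < θ) (hθ1 : θ < 1) :
    ∑' x : Vertex M j, flux M ξ (lab x) * ‖wave θ ξ x.1‖ ^ 2 = flux M ξ j / (1 - θ ^ 2) := by
  have hθ2 : 0 < 1 - θ ^ 2 := by nlinarith
  have hs := summable_flux (M := M) (j := j) hξ heq hθ0 hθ1
  have h1 := (hasSum_children hs).tsum_eq
  simp only [flux_children hξ heq] at h1
  rw [tsum_mul_left] at h1
  have h2 : flux M ξ (lab (root : Vertex M j)) * ‖wave θ ξ (root : Vertex M j).1‖ ^ 2
      = flux M ξ j := by
    change flux M ξ j * ‖(1 : ℂ)‖ ^ 2 = _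
    simp
  rw [h2] at h1
  rw [eq_div_iff hθ2.ne']
  linarith

lemma summable_wave (hξ : ∀ k, 0 < (ξ k).im)
    (heq : ∀ k, ξ k * ((E : ℂ) - w k + ∑ l, (M k l : ℂ) * ξ l) + 1 = 0) {θ : ℝ}
    (hθ0 : 0 < θ) (hθ1 : θ < 1) :
    Summable (fun x : Vertex M j => ‖wave θ ξ x.1‖ ^ 2) := by
  refine Summable.of_nonneg_of_le (fun x => by positivity) (fun x => ?_)
    ((summable_flux (M := M) (j := j) hξ heq hθ0 hθ1).mul_left (∑ k, (flux M ξ k)⁻¹))
  have hf := flux_pos (M := M) hξ heq (lab x)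
  have h1 : (flux M ξ (lab x))⁻¹ ≤ ∑ k, (flux M ξ k)⁻¹ :=
    Finset.single_le_sum (f := fun k => (flux M ξ k)⁻¹)
      (fun k _ => (inv_pos.2 (flux_pos (M := M) hξ heq k)).le) (Finset.mem_univ (lab x))
  calc ‖wave θ ξ x.1‖ ^ 2 = (flux M ξ (lab x))⁻¹ * (flux M ξ (lab x) * ‖wave θ ξ x.1‖ ^ 2) := by
        field_simp
    _ ≤ _ := mul_le_mul_of_nonneg_right h1 (by positivity)

/-- The damped wave as a vector of `ℓ²`. -/
noncomputable def waveVec (M : Matrix A A ℕ) (j : A) (θ : ℝ) (ξ : A → ℂ)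
    (h : Summable (fun x : Vertex M j => ‖wave θ ξ x.1‖ ^ 2)) : ℓ²(Vertex M j, ℂ) :=
  ⟨fun x => wave θ ξ x.1, memlp_of_summable h⟩

lemma waveVec_norm_lower (hξ : ∀ k, 0 < (ξ k).im)
    (heq : ∀ k, ξ k * ((E : ℂ) - w k + ∑ l, (M k l : ℂ) * ξ l) + 1 = 0) {θ : ℝ}
    (hθ0 : 0 < θ) (hθ1 : θ < 1) :
    flux M ξ j / (1 - θ ^ 2) ≤ (∑ k, flux M ξ k) *
      ‖waveVec M j θ ξ (summable_wave hξ heq hθ0 hθ1)‖ ^ 2 := by
  rw [← tsum_flux hξ heq hθ0 hθ1, l2_norm_sq, ← tsum_mul_left]
  refine Summable.tsum_le_tsum (fun x => ?_) (summable_flux hξ heq hθ0 hθ1)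
    ((summable_wave hξ heq hθ0 hθ1).mul_left _)
  refine mul_le_mul_of_nonneg_right ?_ (by positivity)
  exact Finset.single_le_sum (f := fun k => flux M ξ k)
    (fun k _ => (flux_pos (M := M) hξ heq k).le) (Finset.mem_univ (lab x))

lemma norm_mulLab_apply_le (g : A → ℂ) (φ : ℓ²(Vertex M j, ℂ)) :
    ‖mulLab M j g φ‖ ≤ (∑ k, ‖g k‖) * ‖φ‖ := by
  have h0 : 0 ≤ ∑ k, ‖g k‖ := Finset.sum_nonneg fun k _ => norm_nonneg _
  refine abs_le_of_sq_le_sq' ?_ (by positivity) |>.2
  rw [mul_pow, l2_norm_sq, l2_norm_sq, ← tsum_mul_left]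
  refine Summable.tsum_le_tsum (fun x => ?_) (l2_summable _) ((l2_summable φ).mul_left _)
  rw [mulLab_apply, norm_mul, mul_pow]
  refine mul_le_mul_of_nonneg_right ?_ (by positivity)
  have h1 : ‖g (lab x)‖ ≤ ∑ k, ‖g k‖ :=
    Finset.single_le_sum (f := fun k => ‖g k‖) (fun k _ => norm_nonneg _) (Finset.mem_univ (lab x))
  exact pow_le_pow_left₀ (norm_nonneg _) h1 2

open scoped Classical in
/-- `(T - E)` applied to the damped wave. -/
lemma treeOp_waveVec (hξ : ∀ k, 0 < (ξ k).im)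
    (heq : ∀ k, ξ k * ((E : ℂ) - w k + ∑ l, (M k l : ℂ) * ξ l) + 1 = 0) {θ : ℝ}
    (hθ0 : 0 < θ) (hθ1 : θ < 1) :
    treeOp M j w (waveVec M j θ ξ (summable_wave hξ heq hθ0 hθ1))
      - (E : ℂ) • waveVec M j θ ξ (summable_wave hξ heq hθ0 hθ1)
      = ((1 - θ : ℝ) : ℂ) • mulLab M j (fun k => (∑ l, (M k l : ℂ) * ξ l) - ((θ : ℂ) * ξ k)⁻¹)
          (waveVec M j θ ξ (summable_wave hξ heq hθ0 hθ1))
        + lp.single 2 root (((θ : ℂ) * ξ j)⁻¹) := by
  have hθ : (θ : ℂ) ≠ 0 := by exact_mod_cast hθ0.ne'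
  have hw : ∀ k, (w k : ℂ) - E = (∑ l, (M k l : ℂ) * ξ l) + (ξ k)⁻¹ := by
    intro k
    have h0 := xi_ne_zero hξ k
    have := heq k
    field_simp
    linear_combination -this
  have hch : ∀ x : Vertex M j, ∑ c, wave θ ξ (child x c).1
      = -(θ * ∑ l, (M (lab x) l : ℂ) * ξ l) * wave θ ξ x.1 := by
    intro x
    have h1 : ∀ c : ChildIdx M (lab x), wave θ ξ (child x c).1 = -(θ * ξ c.1) * wave θ ξ x.1 :=
      fun c => rfl
    simp only [h1]
    rw [← Finset.sum_mul, Fintype.sum_sigma]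
    simp only [Finset.sum_const, Finset.card_univ, Fintype.card_fin, nsmul_eq_mul]
    rw [Finset.mul_sum, ← Finset.sum_neg_distrib]
    congr 1
    apply Finset.sum_congr rfl
    intro l _
    ring
  ext x
  have e1 : (treeOp M j w (waveVec M j θ ξ (summable_wave hξ heq hθ0 hθ1))
      - (E : ℂ) • waveVec M j θ ξ (summable_wave hξ heq hθ0 hθ1) : ℓ²(Vertex M j, ℂ)) x
      = treeOp M j w (waveVec M j θ ξ (summable_wave hξ heq hθ0 hθ1)) x
        - (E : ℂ) * wave θ ξ x.1 := rfl
  have e2 : (((1 - θ : ℝ) : ℂ) • mulLab M j (fun k => (∑ l, (M k l : ℂ) * ξ l)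
        - ((θ : ℂ) * ξ k)⁻¹) (waveVec M j θ ξ (summable_wave hξ heq hθ0 hθ1))
        + lp.single 2 root (((θ : ℂ) * ξ j)⁻¹) : ℓ²(Vertex M j, ℂ)) x
      = ((1 - θ : ℝ) : ℂ) * (((∑ l, (M (lab x) l : ℂ) * ξ l) - ((θ : ℂ) * ξ (lab x))⁻¹)
          * wave θ ξ x.1) + (lp.single 2 root (((θ : ℂ) * ξ j)⁻¹) : ℓ²(Vertex M j, ℂ)) x := rfl
  rw [e1, e2, treeOp_apply]
  have e3 : ∑ c, (waveVec M j θ ξ (summable_wave hξ heq hθ0 hθ1)) (child x c)
      = ∑ c, wave θ ξ (child x c).1 := rfl
  have e4 : (waveVec M j θ ξ (summable_wave hξ heq hθ0 hθ1)) x = wave θ ξ x.1 := rfl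
  rw [e3, e4, hch x]
  obtain ⟨z, rfl⟩ := splitEquiv.surjective x
  rcases z with u | ⟨y, c⟩
  · -- the root
    have r1 : (splitEquiv (Sum.inl u) : Vertex M j) = root := rfl
    rw [r1]
    have r2 : wave θ ξ (root : Vertex M j).1 = 1 := rfl
    have r3 : lab (root : Vertex M j) = j := rfl
    rw [atParent_root, r2, r3, lp.single_apply, Pi.single_eq_same]
    have hj := xi_ne_zero hξ j
    have h2 := hw j
    have h3 : (w j : ℂ) = E + ((∑ l, (M j l : ℂ) * ξ l) + (ξ j)⁻¹) := by
      rw [← h2]; ring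
    rw [h3]
    push_cast
    field_simp
    ring
  · -- a child
    have r1 : (splitEquiv (Sum.inr ⟨y, c⟩) : Vertex M j) = child y c := rfl
    rw [r1, atParent_child, lab_child, lp.single_apply, Pi.single_eq_of_ne]
    · have hk := xi_ne_zero hξ c.1
      have r2 : wave θ ξ (child y c).1 = -(θ * ξ c.1) * wave θ ξ y.1 := rfl
      have r3 : (waveVec M j θ ξ (summable_wave hξ heq hθ0 hθ1)) y = wave θ ξ y.1 := rfl
      have h2 := hw c.1
      have h3 : (w c.1 : ℂ) = E + ((∑ l, (M c.1 l : ℂ) * ξ l) + (ξ c.1)⁻¹) := by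
        rw [← h2]; ring
      rw [r2, r3, h3]
      push_cast
      field_simp
      ring
    · intro h
      have := splitEquiv.injective (a₁ := .inr ⟨y, c⟩) (a₂ := .inl ()) h
      cases this

/-- Points of `Σ₁` belong to the spectrum. -/
lemma mem_spectrum_of_wave (hξ : ∀ k, 0 < (ξ k).im)
    (heq : ∀ k, ξ k * ((E : ℂ) - w k + ∑ l, (M k l : ℂ) * ξ l) + 1 = 0) :
    (E : ℂ) ∈ spectrum ℂ (treeOp M j w) := by
  classical
  rw [spectrum.mem_iff]
  intro hunit
  obtain ⟨u, hu⟩ := hunit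
  -- the inverse is bounded
  let S : ℓ²(Vertex M j, ℂ) →L[ℂ] ℓ²(Vertex M j, ℂ) := ((u⁻¹ : (_)ˣ) : _)
  have hS : ∀ φ : ℓ²(Vertex M j, ℂ), ‖φ‖ ≤ ‖S‖ * ‖treeOp M j w φ - (E : ℂ) • φ‖ := by
    intro φ
    have h1 : S ((algebraMap ℂ (ℓ²(Vertex M j, ℂ) →L[ℂ] ℓ²(Vertex M j, ℂ)) (E : ℂ)
        - treeOp M j w) φ) = φ := by
      rw [← hu]
      change (((u⁻¹ : (_)ˣ) : ℓ²(Vertex M j, ℂ) →L[ℂ] ℓ²(Vertex M j, ℂ)) * (u : _)) φ = φ
      rw [Units.inv_mul]
      rfl
    have h2 : ((algebraMap ℂ (ℓ²(Vertex M j, ℂ) →L[ℂ] ℓ²(Vertex M j, ℂ)) (E : ℂ)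
        - treeOp M j w) φ) = -(treeOp M j w φ - (E : ℂ) • φ) := by
      rw [_root_.sub_apply, Algebra.algebraMap_eq_smul_one, _root_.smul_apply,
        one_apply_eq_self]
      abel
    calc ‖φ‖ = ‖S ((algebraMap ℂ (ℓ²(Vertex M j, ℂ) →L[ℂ] ℓ²(Vertex M j, ℂ)) (E : ℂ)
        - treeOp M j w) φ)‖ := by rw [h1]
      _ ≤ ‖S‖ * ‖((algebraMap ℂ (ℓ²(Vertex M j, ℂ) →L[ℂ] ℓ²(Vertex M j, ℂ)) (E : ℂ)
        - treeOp M j w) φ)‖ := S.le_opNorm _
      _ = _ := by rw [h2, norm_neg]
  -- constants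
  let G : ℝ := ∑ k, (‖∑ l, (M k l : ℂ) * ξ l‖ + 2 * ‖ξ k‖⁻¹)
  have hG : 0 ≤ G := Finset.sum_nonneg fun k _ => by positivity
  let B : ℝ := ∑ k, flux M ξ k
  have hfj := flux_pos (M := M) hξ heq j
  have hB : 0 < B := lt_of_lt_of_le hfj
    (Finset.single_le_sum (f := fun k => flux M ξ k)
      (fun k _ => (flux_pos (M := M) hξ heq k).le) (Finset.mem_univ j))
  let K : ℝ := 2 * (‖S‖ * (2 * ‖ξ j‖⁻¹))
  have hK : 0 ≤ K := by positivity
  -- the choice of the damping
  let δ : ℝ := min (1 / 2) (min (1 / (2 * (‖S‖ * G + 1))) (flux M ξ j / (4 * (B * K ^ 2 + 1))))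
  have hSG : 0 < ‖S‖ * G + 1 := by positivity
  have hBK : 0 < B * K ^ 2 + 1 := by positivity
  have hδ0 : 0 < δ := by
    refine lt_min (by norm_num) (lt_min (by positivity) (by positivity))
  have hδ1 : δ ≤ 1 / 2 := min_le_left _ _
  have hδ2 : δ ≤ 1 / (2 * (‖S‖ * G + 1)) := (min_le_right _ _).trans (min_le_left _ _)
  have hδ3 : δ ≤ flux M ξ j / (4 * (B * K ^ 2 + 1)) := (min_le_right _ _).trans (min_le_right _ _)
  have hθ0 : (0 : ℝ) < 1 - δ := by linarith
  have hθ1 : (1 : ℝ) - δ < 1 := by linarith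
  set θ : ℝ := 1 - δ with hθdef
  let φ := waveVec M j θ ξ (summable_wave hξ heq hθ0 hθ1)
  have hθinv : θ⁻¹ ≤ 2 := by
    rw [inv_le_comm₀ hθ0 (by norm_num)]
    rw [hθdef]; linarith
  have hgk : ∀ k, ‖(∑ l, (M k l : ℂ) * ξ l) - ((θ : ℂ) * ξ k)⁻¹‖
      ≤ ‖∑ l, (M k l : ℂ) * ξ l‖ + 2 * ‖ξ k‖⁻¹ := by
    intro k
    refine (norm_sub_le _ _).trans ?_
    gcongr
    rw [norm_inv, norm_mul, Complex.norm_real, Real.norm_of_nonneg hθ0.le, mul_inv]
    exact mul_le_mul_of_nonneg_right hθinv (by positivity)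
  have h1 : ‖treeOp M j w φ - (E : ℂ) • φ‖ ≤ δ * (G * ‖φ‖) + 2 * ‖ξ j‖⁻¹ := by
    have h2 := treeOp_waveVec (M := M) (j := j) hξ heq hθ0 hθ1
    rw [h2]
    refine (norm_add_le _ _).trans ?_
    refine add_le_add ?_ ?_
    · rw [norm_smul, Complex.norm_real]
      have h3 : ‖(1 - θ : ℝ)‖ = δ := by
        rw [hθdef, Real.norm_of_nonneg] <;> linarith
      rw [h3]
      refine mul_le_mul_of_nonneg_left ?_ hδ0.le
      refine (norm_mulLab_apply_le _ _).trans ?_
      refine mul_le_mul_of_nonneg_right ?_ (norm_nonneg _)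
      exact Finset.sum_le_sum fun k _ => hgk k
    · rw [lp.norm_single (by norm_num), norm_inv, norm_mul, Complex.norm_real,
        Real.norm_of_nonneg hθ0.le, mul_inv]
      exact mul_le_mul_of_nonneg_right hθinv (by positivity)
  have h2 : ‖φ‖ ≤ K := by
    have h3 := hS φ
    have h4 : ‖S‖ * ‖treeOp M j w φ - (E : ℂ) • φ‖
        ≤ ‖S‖ * (δ * (G * ‖φ‖) + 2 * ‖ξ j‖⁻¹) :=
      mul_le_mul_of_nonneg_left h1 (norm_nonneg _)
    have h5 : δ * (‖S‖ * G) ≤ 1 / 2 := by
      have h6 : δ * (‖S‖ * G + 1) ≤ 1 / 2 := by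
        calc δ * (‖S‖ * G + 1) ≤ 1 / (2 * (‖S‖ * G + 1)) * (‖S‖ * G + 1) :=
              mul_le_mul_of_nonneg_right hδ2 hSG.le
          _ = 1 / 2 := by field_simp
      nlinarith
    have h7 : ‖S‖ * (δ * (G * ‖φ‖) + 2 * ‖ξ j‖⁻¹)
        = (δ * (‖S‖ * G)) * ‖φ‖ + ‖S‖ * (2 * ‖ξ j‖⁻¹) := by ring
    have h8 : (δ * (‖S‖ * G)) * ‖φ‖ ≤ 1 / 2 * ‖φ‖ :=
      mul_le_mul_of_nonneg_right h5 (norm_nonneg _)
    change ‖φ‖ ≤ 2 * (‖S‖ * (2 * ‖ξ j‖⁻¹))
    linarith
  have h3 := waveVec_norm_lower (M := M) (j := j) hξ heq hθ0 hθ1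
  have h4 : ‖φ‖ ^ 2 ≤ K ^ 2 := pow_le_pow_left₀ (norm_nonneg _) h2 2
  have h5 : flux M ξ j / (1 - θ ^ 2) ≤ B * K ^ 2 := h3.trans (mul_le_mul_of_nonneg_left h4 hB.le)
  have hθ2 : 0 < 1 - θ ^ 2 := by nlinarith
  rw [div_le_iff₀ hθ2] at h5
  have h6 : 1 - θ ^ 2 ≤ 2 * δ := by rw [hθdef]; nlinarith
  have h7 : B * K ^ 2 * (1 - θ ^ 2) ≤ (B * K ^ 2 + 1) * (2 * δ) := by
    have : 0 ≤ B * K ^ 2 := by positivity
    nlinarith
  have h8 : (B * K ^ 2 + 1) * (2 * δ) ≤ flux M ξ j / 2 := by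
    calc (B * K ^ 2 + 1) * (2 * δ) ≤ (B * K ^ 2 + 1) * (2 * (flux M ξ j / (4 * (B * K ^ 2 + 1)))) := by
          gcongr
      _ = flux M ξ j / 2 := by field_simp; ring
  linarith

end Wave

end Operators

/-! ## The example -/

section Example

/-- The substitution matrix of the example. -/
def M₀ : Matrix (Fin 2) (Fin 2) ℕ := !![2, 2; 2, 2]

/-- The potential of the example. -/
def w₀ : Fin 2 → ℝ := ![2, -2]

lemma exists_root_upper {E : ℝ} (h0 : E ≠ 0) (h1 : E ^ 2 < 27) :
    ∃ P : ℂ, 0 < P.im ∧ P ^ 3 - E * P ^ 2 + 4 * E = 0 := by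
  -- a real root `r` with `(r - E) * (3 * r + E) > 0`
  have hr : ∃ r : ℝ, r ^ 3 - E * r ^ 2 + 4 * E = 0 ∧ 0 < (r - E) * (3 * r + E) := by
    have hcont : Continuous (fun x : ℝ => x ^ 3 - E * x ^ 2 + 4 * E) := by fun_prop
    rcases lt_or_gt_of_ne h0 with hE | hE
    · have hab : -E / 3 ≤ 4 - E := by linarith
      have hfa : (-E / 3) ^ 3 - E * (-E / 3) ^ 2 + 4 * E < 0 := by
        have : (-E / 3) ^ 3 - E * (-E / 3) ^ 2 + 4 * E = 4 * E * (1 - E ^ 2 / 27) := by ring
        rw [this]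
        have h2 : 0 < 1 - E ^ 2 / 27 := by linarith
        nlinarith
      have hfb : 0 < (4 - E) ^ 3 - E * (4 - E) ^ 2 + 4 * E := by
        have : (4 - E) ^ 3 - E * (4 - E) ^ 2 + 4 * E = (4 - E) ^ 2 * (4 - 2 * E) + 4 * E := by ring
        rw [this]
        have h2 : 16 ≤ (4 - E) ^ 2 := by nlinarith
        nlinarith
      obtain ⟨r, hr, hr0⟩ := intermediate_value_Ioo hab hcont.continuousOn
        (show (0 : ℝ) ∈ Set.Ioo _ _ from ⟨hfa, hfb⟩)
      refine ⟨r, hr0, ?_⟩
      have h2 : -E / 3 < r := hr.1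
      have h3 : 0 < 3 * r + E := by linarith
      have h4 : 0 < r - E := by linarith
      exact mul_pos h4 h3
    · have hab : -(E + 4) ≤ -E / 3 := by linarith
      have hfb : 0 < (-E / 3) ^ 3 - E * (-E / 3) ^ 2 + 4 * E := by
        have : (-E / 3) ^ 3 - E * (-E / 3) ^ 2 + 4 * E = 4 * E * (1 - E ^ 2 / 27) := by ring
        rw [this]
        have h2 : 0 < 1 - E ^ 2 / 27 := by linarith
        positivity
      have hfa : (-(E + 4)) ^ 3 - E * (-(E + 4)) ^ 2 + 4 * E < 0 := by
        have : (-(E + 4)) ^ 3 - E * (-(E + 4)) ^ 2 + 4 * E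
            = -((E + 4) ^ 2 * (2 * E + 4)) + 4 * E := by ring
        rw [this]
        have h2 : 16 ≤ (E + 4) ^ 2 := by nlinarith
        nlinarith
      obtain ⟨r, hr, hr0⟩ := intermediate_value_Ioo hab hcont.continuousOn
        (show (0 : ℝ) ∈ Set.Ioo _ _ from ⟨hfa, hfb⟩)
      refine ⟨r, hr0, ?_⟩
      have h2 : r < -E / 3 := hr.2
      have h3 : 3 * r + E < 0 := by linarith
      have h4 : r - E < 0 := by linarith
      exact mul_pos_of_neg_of_neg h4 h3
  obtain ⟨r, hr0, hD⟩ := hr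
  set D := (r - E) * (3 * r + E) with hDdef
  have hs : Real.sqrt D ^ 2 = D := Real.sq_sqrt hD.le
  have hsq : ((Real.sqrt D : ℝ) : ℂ) ^ 2 = ((r : ℂ) - E) * (3 * r + E) := by
    have : ((Real.sqrt D ^ 2 : ℝ) : ℂ) = ((D : ℝ) : ℂ) := by rw [hs]
    rw [hDdef] at this
    push_cast at this
    exact this
  have hr0' : (r : ℂ) ^ 3 - E * r ^ 2 + 4 * E = 0 := by exact_mod_cast congrArg (fun x : ℝ => (x : ℂ)) hr0
  refine ⟨(((E - r : ℝ) : ℂ) + (Real.sqrt D : ℝ) * Complex.I) / 2, ?_, ?_⟩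
  · have : (((((E - r : ℝ) : ℂ) + (Real.sqrt D : ℝ) * Complex.I) / 2 : ℂ)).im = Real.sqrt D / 2 := by
      simp
    rw [this]
    have := Real.sqrt_pos.2 hD
    positivity
  · set P : ℂ := (((E - r : ℝ) : ℂ) + (Real.sqrt D : ℝ) * Complex.I) / 2 with hP
    have hquad : P ^ 2 + (r - E) * P + r * (r - E) = 0 := by
      rw [hP]
      push_cast
      have hI : Complex.I ^ 2 = -1 := Complex.I_sq
      linear_combination (1 / 4 : ℂ) * ((Real.sqrt D : ℝ) : ℂ) ^ 2 * hI - (1 / 4 : ℂ) * hsq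
    linear_combination (P - r) * hquad + hr0'

lemma sigma1_eq :
    Sigma1 (fun k l => (M₀ k l : ℝ)) w₀
      = Set.Ioo (-(3 * Real.sqrt 3)) 0 ∪ Set.Ioo 0 (3 * Real.sqrt 3) := by
  have hs3 : Real.sqrt 3 ^ 2 = 3 := Real.sq_sqrt (by norm_num)
  have hs3p : 0 < Real.sqrt 3 := Real.sqrt_pos.2 (by norm_num)
  have hset : ∀ E : ℝ, (E ≠ 0 ∧ E ^ 2 < 27) ↔
      E ∈ Set.Ioo (-(3 * Real.sqrt 3)) 0 ∪ Set.Ioo 0 (3 * Real.sqrt 3) := by
    intro E
    constructor
    · rintro ⟨h0, h1⟩
      have h2 : E ^ 2 < (3 * Real.sqrt 3) ^ 2 := by rw [mul_pow, hs3]; linarith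
      have h3 := abs_lt_of_sq_lt_sq' h2 (by positivity)
      rcases lt_or_gt_of_ne h0 with h | h
      · exact Or.inl ⟨h3.1, h⟩
      · exact Or.inr ⟨h, h3.2⟩
    · rintro (⟨h1, h2⟩ | ⟨h1, h2⟩)
      · refine ⟨h2.ne, ?_⟩
        nlinarith
      · refine ⟨h1.ne', ?_⟩
        nlinarith
  ext E
  rw [← hset]
  constructor
  · rintro ⟨ξ, hξ, heq⟩
    have e0 := heq 0
    have e1 := heq 1
    simp only [Fin.sum_univ_two, M₀, w₀, Matrix.of_apply, Matrix.cons_val_zero,
      Matrix.cons_val_one, Matrix.cons_val', Matrix.cons_val_fin_one] at e0 e1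
    push_cast at e0 e1
    set P : ℂ := E + 2 * (ξ 0 + ξ 1) with hP
    have f0 : ξ 0 * (P - 2) = -1 := by rw [hP]; linear_combination e0
    have f1 : ξ 1 * (P + 2) = -1 := by rw [hP]; linear_combination e1
    have hcub : P ^ 3 - E * P ^ 2 + 4 * E = 0 := by
      have h1 : (P - E) = 2 * (ξ 0 + ξ 1) := by rw [hP]; ring
      linear_combination (P - 2) * (P + 2) * h1 + 2 * (P + 2) * f0 + 2 * (P - 2) * f1
    have hPim : 0 < P.im := by
      have h1 : P.im = 2 * ((ξ 0).im + (ξ 1).im) := by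
        rw [hP]
        simp
      rw [h1]
      have := hξ 0
      have := hξ 1
      positivity
    obtain ⟨u, v, hPuv⟩ : ∃ u v : ℝ, P = u + v * Complex.I := ⟨P.re, P.im, (Complex.re_add_im P).symm⟩
    have hv : P.im = v := by rw [hPuv]; simp
    rw [hv] at hPim
    have hexp : P ^ 3 - E * P ^ 2 + 4 * E
        = ((u ^ 3 - 3 * u * v ^ 2 - E * (u ^ 2 - v ^ 2) + 4 * E : ℝ) : ℂ)
          + ((3 * u ^ 2 * v - v ^ 3 - 2 * E * u * v : ℝ) : ℂ) * Complex.I := by
      rw [hPuv]
      push_cast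
      have hI : Complex.I ^ 2 = -1 := Complex.I_sq
      have hI3 : Complex.I ^ 3 = -Complex.I := by rw [pow_succ, hI]; ring
      linear_combination (3 * (u : ℂ) * v ^ 2 - E * v ^ 2) * hI + (v : ℂ) ^ 3 * hI3
    rw [hexp] at hcub
    have hre := congrArg Complex.re hcub
    have him := congrArg Complex.im hcub
    simp only [Complex.add_re, Complex.ofReal_re, Complex.mul_re, Complex.I_re, mul_zero,
      Complex.ofReal_im, Complex.I_im, mul_one, sub_self, add_zero, Complex.zero_re] at hre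
    simp only [Complex.add_im, Complex.ofReal_im, Complex.mul_im, Complex.ofReal_re, Complex.I_im,
      mul_one, Complex.I_re, mul_zero, add_zero, zero_add, Complex.zero_im] at him
    have hv2 : v ^ 2 = 3 * u ^ 2 - 2 * E * u := by
      have h1 : v * (3 * u ^ 2 - v ^ 2 - 2 * E * u) = 0 := by linear_combination him
      have h2 := (mul_eq_zero.mp h1).resolve_left hPim.ne'
      linarith
    have hkey : 2 * E = u * (2 * u - E) ^ 2 := by
      rw [hv2] at hre
      linear_combination (1 / 2 : ℝ) * hre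
    have hvpos : 0 < u * (3 * u - 2 * E) := by
      have : 0 < v ^ 2 := by positivity
      rw [hv2] at this
      linarith
    have hE0 : E ≠ 0 := by
      intro h
      rw [h] at hkey hvpos
      have h1 : u ^ 3 = 0 := by linarith
      have h2 : u = 0 := by simpa using h1
      rw [h2] at hvpos
      simp at hvpos
    refine ⟨hE0, ?_⟩
    rcases lt_or_gt_of_ne hE0 with hE | hE
    · have hu : u < 0 := by
        by_contra hu
        push Not at hu
        have : 0 ≤ u * (2 * u - E) ^ 2 := by positivity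
        linarith
      have h1 : 3 * u - 2 * E < 0 := by
        by_contra h
        push Not at h
        have := mul_nonpos_of_nonpos_of_nonneg hu.le h
        linarith
      -- `2 * u - E < E / 3 < 0`
      have h2 : (E / 3) ^ 2 < (2 * u - E) ^ 2 := by nlinarith
      have h3 : 2 * E < (2 * E / 3) * (E / 3) ^ 2 := by
        have h4 : u * (2 * u - E) ^ 2 < u * (E / 3) ^ 2 := mul_lt_mul_of_neg_left h2 hu
        have h5 : u * (E / 3) ^ 2 ≤ (2 * E / 3) * (E / 3) ^ 2 := by
          apply mul_le_mul_of_nonneg_right _ (by positivity)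
          linarith
        linarith
      have h4 : (2 * E / 3) * (E / 3) ^ 2 = 2 * E * (E ^ 2 / 27) := by ring
      rw [h4] at h3
      have h5 : 0 < 2 * E * (E ^ 2 / 27 - 1) := by linarith
      have h6 : E ^ 2 / 27 - 1 < 0 := by
        by_contra h
        push Not at h
        have := mul_nonpos_of_nonpos_of_nonneg (by linarith : 2 * E ≤ 0) h
        linarith
      linarith
    · have hu : 0 < u := by
        by_contra hu
        push Not at hu
        have : u * (2 * u - E) ^ 2 ≤ 0 := mul_nonpos_of_nonpos_of_nonneg hu (by positivity)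
        linarith
      have h1 : 0 < 3 * u - 2 * E := by
        by_contra h
        push Not at h
        have := mul_nonpos_of_nonneg_of_nonpos hu.le h
        linarith
      have h2 : (E / 3) ^ 2 < (2 * u - E) ^ 2 := by nlinarith
      have h3 : (2 * E / 3) * (E / 3) ^ 2 < 2 * E := by
        have h4 : u * (E / 3) ^ 2 < u * (2 * u - E) ^ 2 := mul_lt_mul_of_pos_left h2 hu
        have h5 : (2 * E / 3) * (E / 3) ^ 2 ≤ u * (E / 3) ^ 2 := by
          apply mul_le_mul_of_nonneg_right _ (by positivity)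
          linarith
        linarith
      have h4 : (2 * E / 3) * (E / 3) ^ 2 = 2 * E * (E ^ 2 / 27) := by ring
      rw [h4] at h3
      have h6 : E ^ 2 / 27 < 1 := by
        by_contra h
        push Not at h
        have := mul_le_mul_of_nonneg_left h (by linarith : 0 ≤ 2 * E)
        linarith
      linarith
  · rintro ⟨h0, h1⟩
    obtain ⟨P, hPim, hP⟩ := exists_root_upper h0 h1
    have hm : P - 2 ≠ 0 := by
      intro h
      have := congrArg Complex.im h
      simp at this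
      exact hPim.ne' this
    have hp : P + 2 ≠ 0 := by
      intro h
      have := congrArg Complex.im h
      simp at this
      exact hPim.ne' this
    refine ⟨![-(P - 2)⁻¹, -(P + 2)⁻¹], ?_, ?_⟩
    · intro k
      fin_cases k
      · simp only [Fin.zero_eta, Matrix.cons_val_zero, Complex.neg_im, Complex.inv_im]
        have h2 : (P - 2).im = P.im := by simp
        have h3 : 0 < Complex.normSq (P - 2) := Complex.normSq_pos.2 hm
        rw [h2]
        have := div_pos hPim h3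
        rw [neg_div, neg_neg]
        exact this
      · simp only [Fin.mk_one, Matrix.cons_val_one, Matrix.cons_val_fin_one, Complex.neg_im, Complex.inv_im]
        have h2 : (P + 2).im = P.im := by simp
        have h3 : 0 < Complex.normSq (P + 2) := Complex.normSq_pos.2 hp
        rw [h2]
        have := div_pos hPim h3
        rw [neg_div, neg_neg]
        exact this
    · have hkey : (E : ℂ) + (2 * -(P - 2)⁻¹ + 2 * -(P + 2)⁻¹) = P := by
        field_simp
        linear_combination -hP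
      intro k
      fin_cases k
      · simp only [Fin.zero_eta, Fin.sum_univ_two, M₀, w₀, Matrix.of_apply, Matrix.cons_val_zero,
          Matrix.cons_val_one, Matrix.cons_val', Matrix.cons_val_fin_one]
        push_cast
        have h2 : (E : ℂ) - 2 + (2 * -(P - 2)⁻¹ + 2 * -(P + 2)⁻¹) = P - 2 := by
          linear_combination hkey
        rw [h2]
        field_simp
        ring
      · simp only [Fin.mk_one, Fin.sum_univ_two, M₀, w₀, Matrix.of_apply, Matrix.cons_val_zero,
          Matrix.cons_val_one, Matrix.cons_val', Matrix.cons_val_fin_one]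
        push_cast
        have h2 : (E : ℂ) - -2 + (2 * -(P - 2)⁻¹ + 2 * -(P + 2)⁻¹) = P + 2 := by
          linear_combination hkey
        rw [h2]
        field_simp
        ring

/-- The spectrum of the example, whatever the label of the root. -/
lemma spectrum_eq (j : Fin 2) :
    spectrum ℂ (treeOp M₀ j w₀)
      = (fun E : ℝ => (E : ℂ)) '' Set.Icc (-(3 * Real.sqrt 3)) (3 * Real.sqrt 3) := by
  have hs3 : Real.sqrt 3 ^ 2 = 3 := Real.sq_sqrt (by norm_num)
  have hs3p : 0 < Real.sqrt 3 := Real.sqrt_pos.2 (by norm_num)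
  have hs31 : 1 < Real.sqrt 3 := by nlinarith
  apply Set.Subset.antisymm
  · refine spectrum_subset w₀ ![(Real.sqrt 3 + 1) / 4, (Real.sqrt 3 - 1) / 4]
      ![(Real.sqrt 3 - 1) / 4, (Real.sqrt 3 + 1) / 4] (3 * Real.sqrt 3) ?_ ?_ ?_ ?_
    · intro k
      fin_cases k
      · simp only [Fin.zero_eta, Matrix.cons_val_zero]; positivity
      · simp only [Fin.mk_one, Matrix.cons_val_one, Matrix.cons_val_fin_one]; linarith
    · intro k
      have i1 : ((Real.sqrt 3 + 1) / 4)⁻¹ = 2 * Real.sqrt 3 - 2 := by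
        field_simp
        nlinarith
      have i2 : ((Real.sqrt 3 - 1) / 4)⁻¹ = 2 * Real.sqrt 3 + 2 := by
        have : Real.sqrt 3 - 1 ≠ 0 := by linarith
        field_simp
        nlinarith
      fin_cases k
      · simp only [Fin.zero_eta, Fin.sum_univ_two, M₀, w₀, Matrix.of_apply, Matrix.cons_val_zero,
          Matrix.cons_val_one, Matrix.cons_val', Matrix.cons_val_fin_one, i1]
        push_cast
        linarith
      · simp only [Fin.mk_one, Fin.sum_univ_two, M₀, w₀, Matrix.of_apply, Matrix.cons_val_zero,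
          Matrix.cons_val_one, Matrix.cons_val', Matrix.cons_val_fin_one, i2]
        push_cast
        linarith
    · intro k
      fin_cases k
      · simp only [Fin.zero_eta, Matrix.cons_val_zero]; linarith
      · simp only [Fin.mk_one, Matrix.cons_val_one, Matrix.cons_val_fin_one]; positivity
    · intro k
      have i1 : ((Real.sqrt 3 + 1) / 4)⁻¹ = 2 * Real.sqrt 3 - 2 := by
        field_simp
        nlinarith
      have i2 : ((Real.sqrt 3 - 1) / 4)⁻¹ = 2 * Real.sqrt 3 + 2 := by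
        have : Real.sqrt 3 - 1 ≠ 0 := by linarith
        field_simp
        nlinarith
      fin_cases k
      · simp only [Fin.zero_eta, Fin.sum_univ_two, M₀, w₀, Matrix.of_apply, Matrix.cons_val_zero,
          Matrix.cons_val_one, Matrix.cons_val', Matrix.cons_val_fin_one, i2]
        push_cast
        linarith
      · simp only [Fin.mk_one, Fin.sum_univ_two, M₀, w₀, Matrix.of_apply, Matrix.cons_val_zero,
          Matrix.cons_val_one, Matrix.cons_val', Matrix.cons_val_fin_one, i1]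
        push_cast
        linarith
  · -- the closed set `σ(T)` contains `Σ₁`, hence its closure
    have hcl : IsClosed ((fun E : ℝ => (E : ℂ)) ⁻¹' spectrum ℂ (treeOp M₀ j w₀)) :=
      (spectrum.isClosed _).preimage Complex.continuous_ofReal
    have hsub : Set.Ioo (-(3 * Real.sqrt 3)) 0 ∪ Set.Ioo 0 (3 * Real.sqrt 3)
        ⊆ (fun E : ℝ => (E : ℂ)) ⁻¹' spectrum ℂ (treeOp M₀ j w₀) := by
      rw [← sigma1_eq]
      rintro E ⟨ξ, hξ, heq⟩
      exact mem_spectrum_of_wave hξ (by simpa using heq)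
    have h2 := hcl.closure_subset_iff.mpr hsub
    rw [closure_union, closure_Ioo (by linarith), closure_Ioo (by linarith)] at h2
    rintro _ ⟨E, hE, rfl⟩
    apply h2
    rcases le_total E 0 with h | h
    · exact Or.inl ⟨hE.1, h⟩
    · exact Or.inr ⟨h, hE.2⟩

lemma card_components_two {R : ℝ} (hR : 0 < R) :
    Nat.card (ConnectedComponents ↥(Set.Ioo (-R) 0 ∪ Set.Ioo 0 R)) = 2 := by
  classical
  set X : Set ℝ := Set.Ioo (-R) 0 ∪ Set.Ioo 0 R with hX
  have hne : ∀ x : X, x.1 ≠ 0 := by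
    rintro ⟨x, h | h⟩
    · exact h.2.ne
    · exact h.1.ne'
  let f : X → Bool := fun x => decide (0 < x.1)
  have hpos : IsOpen {x : X | 0 < x.1} := isOpen_lt continuous_const continuous_subtype_val
  have hneg : IsOpen {x : X | x.1 < 0} := isOpen_lt continuous_subtype_val continuous_const
  have hf : Continuous f := by
    apply IsLocallyConstant.continuous
    rw [IsLocallyConstant.iff_isOpen_fiber]
    intro b
    cases b
    · have : f ⁻¹' {false} = {x : X | x.1 < 0} := by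
        ext x
        have := hne x
        simp only [f, Set.mem_preimage, Set.mem_singleton_iff, decide_eq_false_iff_not, not_lt,
          Set.mem_ofPred_eq]
        exact ⟨fun h => lt_of_le_of_ne h this, le_of_lt⟩
      rw [this]; exact hneg
    · have : f ⁻¹' {true} = {x : X | 0 < x.1} := by
        ext x
        simp [f]
      rw [this]; exact hpos
  have hcpos : IsPreconnected {x : X | 0 < x.1} := by
    rw [← Topology.IsInducing.subtypeVal.isPreconnected_image]
    have : Subtype.val '' {x : X | 0 < x.1} = Set.Ioo 0 R := by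
      ext y
      constructor
      · rintro ⟨⟨z, h | h⟩, hz, rfl⟩
        · exact absurd hz (not_lt.2 h.2.le)
        · exact h
      · intro hy
        exact ⟨⟨y, Or.inr hy⟩, hy.1, rfl⟩
    rw [this]
    exact isPreconnected_Ioo
  have hcneg : IsPreconnected {x : X | x.1 < 0} := by
    rw [← Topology.IsInducing.subtypeVal.isPreconnected_image]
    have : Subtype.val '' {x : X | x.1 < 0} = Set.Ioo (-R) 0 := by
      ext y
      constructor
      · rintro ⟨⟨z, h | h⟩, hz, rfl⟩
        · exact h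
        · exact absurd hz (not_lt.2 h.1.le)
      · intro hy
        exact ⟨⟨y, Or.inl hy⟩, hy.2, rfl⟩
    rw [this]
    exact isPreconnected_Ioo
  let g : ConnectedComponents X → Bool := hf.connectedComponentsLift
  have hg : Function.Bijective g := by
    constructor
    · intro a b hab
      obtain ⟨x, rfl⟩ := ConnectedComponents.surjective_coe a
      obtain ⟨y, rfl⟩ := ConnectedComponents.surjective_coe b
      have hfxy : f x = f y := hab
      rw [ConnectedComponents.coe_eq_coe']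
      by_cases hx : 0 < x.1
      · have hy : 0 < y.1 := by
          have : f x = true := by simp [f, hx]
          rw [this] at hfxy
          simpa [f] using hfxy.symm
        exact hcpos.subset_connectedComponent hy hx
      · have hx' : x.1 < 0 := lt_of_le_of_ne (not_lt.1 hx) (hne x)
        have hy : y.1 < 0 := by
          have : f x = false := by simp [f, hx'.le]
          rw [this] at hfxy
          have h2 : ¬ 0 < y.1 := by simpa [f] using hfxy.symm
          exact lt_of_le_of_ne (not_lt.1 h2) (hne y)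
        exact hcneg.subset_connectedComponent hy hx'
    · intro b
      cases b
      · refine ⟨((⟨-R / 2, Or.inl ⟨by linarith, by linarith⟩⟩ : X) : ConnectedComponents X), ?_⟩
        change f _ = false
        simp only [f, decide_eq_false_iff_not, not_lt]
        linarith
      · refine ⟨((⟨R / 2, Or.inr ⟨by linarith, by linarith⟩⟩ : X) : ConnectedComponents X), ?_⟩
        change f _ = true
        simp only [f, decide_eq_true_eq]
        linarith
  rw [Nat.card_congr (Equiv.ofBijective g hg)]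
  simp

lemma card_components_one {s : Set ℂ} (hs : IsConnected s) :
    Nat.card (ConnectedComponents s) = 1 := by
  have : ConnectedSpace s := isConnected_iff_connectedSpace.mp hs
  have : Nonempty (ConnectedComponents s) := by
    obtain ⟨x⟩ := (inferInstance : Nonempty s)
    exact ⟨(x : ConnectedComponents s)⟩
  have : Subsingleton (ConnectedComponents s) := inferInstance
  exact Nat.card_unique

end Example

end Pool.Agent.Lib.MP_750254_mp
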